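import Mathlib

/-! Hilbert basis of `L²(G)` by characters of finite order, for a compact abelian group whose
continuous characters of finite order separate points. -/

set_option autoImplicit false

namespace Pool.Agent.H84_tilf
open MeasureTheory Submodule
open scoped ComplexConjugate ENNReal InnerProductSpace

variable (G : Type) [TopologicalSpace G] [AddCommGroup G]

/-- continuous characters of finite order -/
def chars : Set C(G, ℂ) :=
  {χ | (∀ x y, χ (x + y) = χ x * χ y) ∧ ∃ N : ℕ, 0 < N ∧ ∀ x, χ x ^ N = 1}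

variable {G}

lemma ch_add {χ : C(G, ℂ)} (h : χ ∈ chars G) (x y : G) : χ (x + y) = χ x * χ y := h.1 x y

lemma ch_norm {χ : C(G, ℂ)} (h : χ ∈ chars G) (x : G) : ‖χ x‖ = 1 := by
  obtain ⟨N, hN, hx⟩ := h.2
  exact Complex.norm_eq_one_of_pow_eq_one (hx x) hN.ne'

lemma ch_ne {χ : C(G, ℂ)} (h : χ ∈ chars G) (x : G) : χ x ≠ 0 := by
  intro h0
  have := ch_norm h x
  rw [h0, norm_zero] at this
  exact zero_ne_one this

lemma ch_zero {χ : C(G, ℂ)} (h : χ ∈ chars G) : χ 0 = 1 := by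
  have h1 := ch_add h 0 0
  rw [add_zero] at h1
  have h2 := ch_ne h 0
  have h3 : χ 0 * (χ 0 - 1) = 0 := by linear_combination -h1
  rcases mul_eq_zero.1 h3 with h4 | h4
  · exact absurd h4 h2
  · linear_combination h4

lemma ch_conj {χ : C(G, ℂ)} (h : χ ∈ chars G) (x : G) : conj (χ x) * χ x = 1 := by
  rw [Complex.conj_mul', ch_norm h x]; norm_num

lemma one_mem_chars : (1 : C(G, ℂ)) ∈ chars G :=
  ⟨fun _ _ => by simp, 1, one_pos, fun _ => by simp⟩

lemma mul_mem_chars {χ ψ : C(G, ℂ)} (h : χ ∈ chars G) (h' : ψ ∈ chars G) : χ * ψ ∈ chars G := by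
  obtain ⟨h1, N, hN, hx⟩ := h
  obtain ⟨h1', N', hN', hx'⟩ := h'
  refine ⟨fun x y => ?_, N * N', Nat.mul_pos hN hN', fun x => ?_⟩
  · simp only [ContinuousMap.mul_apply, h1, h1']; ring
  · rw [ContinuousMap.mul_apply, mul_pow, pow_mul, hx, one_pow, mul_comm N, pow_mul, hx',
      one_pow, one_mul]

lemma star_mem_chars {χ : C(G, ℂ)} (h : χ ∈ chars G) : star χ ∈ chars G := by
  obtain ⟨h1, N, hN, hx⟩ := h
  refine ⟨fun x y => ?_, N, hN, fun x => ?_⟩
  · simp only [ContinuousMap.star_apply, h1, star_mul']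
  · rw [ContinuousMap.star_apply, ← star_pow, hx, star_one]

/-- the star subalgebra generated by the characters -/
noncomputable def chAlg (G : Type) [TopologicalSpace G] [AddCommGroup G] [CompactSpace G] :
    StarSubalgebra ℂ C(G, ℂ) where
  toSubalgebra := Algebra.adjoin ℂ (chars G)
  star_mem' := by
    change Algebra.adjoin ℂ (chars G) ≤ star (Algebra.adjoin ℂ (chars G))
    refine Algebra.adjoin_le ?_
    intro χ hχ
    exact Algebra.subset_adjoin (star_mem_chars hχ)

theorem chAlg_coe [CompactSpace G] :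
    Subalgebra.toSubmodule (chAlg G).toSubalgebra = span ℂ (chars G) := by
  apply Algebra.adjoin_eq_span_of_subset
  refine Set.Subset.trans ?_ Submodule.subset_span
  intro x hx
  refine Submonoid.closure_induction (fun _ => id) one_mem_chars ?_ hx
  intro χ ψ _ _ h1 h2
  exact mul_mem_chars h1 h2

theorem span_chars_closure [CompactSpace G]
    (hsep : ∀ x y : G, x ≠ y → ∃ χ ∈ chars G, χ x ≠ χ y) :
    (span ℂ (chars G)).topologicalClosure = ⊤ := by
  have hs : (chAlg G).SeparatesPoints := by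
    intro x y hxy
    obtain ⟨χ, hχ, hne⟩ := hsep x y hxy
    exact ⟨_, ⟨χ, Algebra.subset_adjoin hχ, rfl⟩, hne⟩
  have h := ContinuousMap.starSubalgebra_topologicalClosure_eq_top_of_separatesPoints (chAlg G) hs
  rw [← chAlg_coe]
  exact congr_arg (Subalgebra.toSubmodule <| StarSubalgebra.toSubalgebra ·) h

variable [IsTopologicalAddGroup G] [CompactSpace G] [T2Space G] [MeasurableSpace G] [BorelSpace G]
  (μ : Measure G) [μ.IsAddHaarMeasure] [IsProbabilityMeasure μ]

/-- the character as an element of `L²` -/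
noncomputable def chLp (χ : chars G) : Lp ℂ 2 μ := ContinuousMap.toLp 2 μ ℂ χ.1

omit [T2Space G] in
theorem span_chLp_closure
    (hsep : ∀ x y : G, x ≠ y → ∃ χ ∈ chars G, χ x ≠ χ y) :
    (span ℂ (Set.range (chLp (G := G) μ))).topologicalClosure = ⊤ := by
  have h1 := (ContinuousMap.toLp_denseRange ℂ μ ℂ (p := 2) (by simp)).topologicalClosure_map_submodule
      (span_chars_closure hsep)
  rw [map_span] at h1
  have h2 : Set.range (chLp (G := G) μ) =
      (ContinuousMap.toLp 2 μ ℂ : C(G, ℂ) →L[ℂ] Lp ℂ 2 μ) '' (chars G) := by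
    ext f
    simp only [Set.mem_range, Set.mem_image, chLp, Subtype.exists, exists_prop]
  rw [h2]
  exact h1

omit [T2Space G] [IsProbabilityMeasure μ] in
lemma integral_char {θ : C(G, ℂ)} (h : θ ∈ chars G) (hne : θ ≠ 1) : ∫ x, θ x ∂μ = 0 := by
  obtain ⟨a, ha⟩ : ∃ a, θ a ≠ 1 := by
    by_contra hcon
    push Not at hcon
    exact hne (ContinuousMap.ext fun x => by simp [hcon x])
  have h1 : ∫ x, θ (x + a) ∂μ = ∫ x, θ x ∂μ := integral_add_right_eq_self (μ := μ) (fun x => θ x) a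
  have h2 : ∫ x, θ (x + a) ∂μ = (∫ x, θ x ∂μ) * θ a := by
    simp_rw [ch_add h]
    exact integral_mul_const _ _
  rw [h2] at h1
  have h3 : (∫ x, θ x ∂μ) * (θ a - 1) = 0 := by linear_combination h1
  rcases mul_eq_zero.1 h3 with h4 | h4
  · exact h4
  · exact absurd (sub_eq_zero.1 h4) ha

omit [T2Space G] in
theorem orthonormal_chLp : Orthonormal ℂ (chLp (G := G) μ) := by
  classical
  rw [orthonormal_iff_ite]
  intro χ ψ
  unfold chLp
  rw [ContinuousMap.inner_toLp]
  split_ifs with h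
  · subst h
    have : ∀ x, χ.1 x * conj (χ.1 x) = 1 := fun x => by rw [mul_comm]; exact ch_conj χ.2 x
    simp [this]
  · have h1 : ∀ x, ψ.1 x * conj (χ.1 x) = (ψ.1 * star χ.1) x := fun x => by
      simp [ContinuousMap.mul_apply]
    simp_rw [h1]
    apply integral_char μ (mul_mem_chars ψ.2 (star_mem_chars χ.2))
    intro h2
    apply h
    apply Subtype.ext
    ext x
    have h3 := congrArg (fun f : C(G, ℂ) => f x) h2
    simp only [ContinuousMap.mul_apply, ContinuousMap.star_apply, ContinuousMap.one_apply] at h3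
    have h4 := ch_conj χ.2 x
    have h5 : star (χ.1 x) = conj (χ.1 x) := rfl
    rw [h5] at h3
    calc χ.1 x = χ.1 x * (ψ.1 x * conj (χ.1 x)) := by rw [h3, mul_one]
      _ = ψ.1 x * (conj (χ.1 x) * χ.1 x) := by ring
      _ = ψ.1 x := by rw [h4, mul_one]

/-- the Hilbert basis of characters -/
noncomputable def chBasis (hsep : ∀ x y : G, x ≠ y → ∃ χ ∈ chars G, χ x ≠ χ y) :
    HilbertBasis (chars G) ℂ (Lp ℂ 2 μ) :=
  HilbertBasis.mk (orthonormal_chLp μ) (span_chLp_closure μ hsep).ge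

omit [T2Space G] in
lemma chBasis_apply (hsep : ∀ x y : G, x ≠ y → ∃ χ ∈ chars G, χ x ≠ χ y) (χ : chars G) :
    chBasis μ hsep χ = chLp μ χ := by
  unfold chBasis
  rw [HilbertBasis.coe_mk]

/-- translation on `L²` -/
noncomputable def tr (a : G) : Lp ℂ 2 μ →ₗᵢ[ℂ] Lp ℂ 2 μ :=
  Lp.compMeasurePreservingₗᵢ ℂ (fun x => x + a) (measurePreserving_add_right μ a)

omit [T2Space G] [IsProbabilityMeasure μ] in
lemma tr_coe (a : G) (f : Lp ℂ 2 μ) : (tr μ a f : G → ℂ) =ᵐ[μ] fun x => (f : G → ℂ) (x + a) :=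
  Lp.coeFn_compMeasurePreserving f (measurePreserving_add_right μ a)

omit [T2Space G] in
lemma tr_ch (a : G) (χ : chars G) : tr μ a (chLp μ χ) = χ.1 a • chLp μ χ := by
  apply Lp.ext
  have h1 := tr_coe μ a (chLp μ χ)
  have h2 : (chLp μ χ : G → ℂ) =ᵐ[μ] χ.1 := ContinuousMap.coeFn_toLp μ χ.1
  have h3 := (measurePreserving_add_right μ a).quasiMeasurePreserving.ae_eq_comp h2
  have h4 := Lp.coeFn_smul (χ.1 a) (chLp μ χ)
  filter_upwards [h1, h2, h3, h4] with x h1 h2 h3 h4
  rw [h1, h4, Pi.smul_apply, h2, smul_eq_mul]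
  have h5 : (chLp μ χ : G → ℂ) (x + a) = χ.1 (x + a) := h3
  rw [h5, ch_add χ.2, mul_comm]

omit [T2Space G] in
theorem repr_tr (hsep : ∀ x y : G, x ≠ y → ∃ χ ∈ chars G, χ x ≠ χ y) (a : G) (g : Lp ℂ 2 μ)
    (χ : chars G) : (chBasis μ hsep).repr (tr μ a g) χ = χ.1 a * (chBasis μ hsep).repr g χ := by
  rw [HilbertBasis.repr_apply_apply, HilbertBasis.repr_apply_apply, chBasis_apply]
  have h1 : ⟪tr μ a (chLp μ χ), tr μ a g⟫_ℂ = ⟪chLp μ χ, g⟫_ℂ := (tr μ a).inner_map_map _ _
  rw [tr_ch, inner_smul_left] at h1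
  rw [← h1, ← mul_assoc, mul_comm (χ.1 a), ch_conj χ.2, one_mul]

end Pool.Agent.H84_tilf
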