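import Mathlib

/-! Estimates on sums over roots of unity. -/

set_option autoImplicit false

namespace Pool.Agent.H84_tilf
open Finset

lemma sum_coset {M : Type*} [AddCommMonoid M] (N : ℕ) (hN : 0 < N) (ζ : ℂ)
    (hζ : IsPrimitiveRoot ζ N) (z : ℂ) (hz : z ^ N = 1) (W : ℂ → M) :
    ∑ k ∈ range N, W (z * ζ ^ k) = ∑ y ∈ Polynomial.nthRootsFinset N (1 : ℂ), W y := by
  classical
  have hz0 : z ≠ 0 := by
    rintro rfl
    rw [zero_pow hN.ne'] at hz
    exact zero_ne_one hz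
  have hinj : Set.InjOn (fun k => z * ζ ^ k) (range N : Set ℕ) := by
    intro i hi j hj hij
    have hi' : i < N := by simpa using hi
    have hj' : j < N := by simpa using hj
    exact hζ.pow_inj hi' hj' (mul_left_cancel₀ hz0 hij)
  have himg : (range N).image (fun k => z * ζ ^ k) = Polynomial.nthRootsFinset N (1 : ℂ) := by
    apply Finset.eq_of_subset_of_card_le
    · intro y hy
      obtain ⟨k, -, rfl⟩ := Finset.mem_image.1 hy
      rw [Polynomial.mem_nthRootsFinset hN, mul_pow, hz, one_mul, ← pow_mul, mul_comm k, pow_mul,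
        hζ.pow_eq_one, one_pow]
    · rw [hζ.card_nthRootsFinset, Finset.card_image_of_injOn hinj, card_range]
  rw [← himg, Finset.sum_image hinj]

lemma low_bound (N k : ℕ) (hN : 0 < N) (hk : k ≤ N) :
    4 * min (k : ℝ) ((N : ℝ) - k) / N ≤
      ‖Complex.exp (2 * Real.pi * Complex.I / N) ^ k - 1‖ := by
  have hNr : (0 : ℝ) < N := by exact_mod_cast hN
  have hkr : (k : ℝ) ≤ N := by exact_mod_cast hk
  have e1 : Complex.exp (2 * Real.pi * Complex.I / N) ^ k
      = Complex.exp (Complex.I * ((2 * Real.pi * k / N : ℝ) : ℂ)) := by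
    rw [← Complex.exp_nat_mul]
    congr 1
    push_cast
    ring
  rw [e1, Complex.norm_exp_I_mul_ofReal_sub_one, Real.norm_eq_abs]
  have e2 : 2 * Real.pi * k / N / 2 = Real.pi * k / N := by ring
  rw [e2]
  refine le_trans ?_ (le_abs_self _)
  rcases le_total (k : ℝ) ((N : ℝ) - k) with h | h
  · rw [min_eq_left h]
    have h1 : Real.pi * k / N ≤ Real.pi / 2 := by
      rw [div_le_div_iff₀ hNr two_pos]
      nlinarith [Real.pi_pos]
    have h2 := Real.mul_le_sin (x := Real.pi * k / N) (by positivity) h1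
    have h3 : 2 / Real.pi * (Real.pi * k / N) = 2 * k / N := by
      field_simp
    rw [h3] at h2
    calc 4 * (k : ℝ) / N = 2 * (2 * k / N) := by ring
      _ ≤ _ := by linarith
  · rw [min_eq_right h]
    have h0 : (0 : ℝ) ≤ (N : ℝ) - k := by linarith
    have h1 : Real.pi * ((N : ℝ) - k) / N ≤ Real.pi / 2 := by
      rw [div_le_div_iff₀ hNr two_pos]
      nlinarith [Real.pi_pos]
    have h2 := Real.mul_le_sin (x := Real.pi * ((N : ℝ) - k) / N) (by positivity) h1
    have h3 : 2 / Real.pi * (Real.pi * ((N : ℝ) - k) / N) = 2 * ((N : ℝ) - k) / N := by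
      field_simp
    have h4 : Real.pi * ((N : ℝ) - k) / N = Real.pi - Real.pi * k / N := by
      field_simp
    rw [h3, h4, Real.sin_pi_sub] at h2
    calc 4 * ((N : ℝ) - k) / N = 2 * (2 * ((N : ℝ) - k) / N) := by ring
      _ ≤ _ := by linarith

lemma sum_inv_sqrt (n : ℕ) : ∑ k ∈ range n, (Real.sqrt ((k : ℝ) + 1))⁻¹ ≤ 2 * Real.sqrt n := by
  induction n with
  | zero => simp
  | succ n ih =>
    rw [Finset.sum_range_succ]
    push_cast
    set a := Real.sqrt ((n : ℝ) + 1) with ha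
    set b := Real.sqrt (n : ℝ) with hb
    have ha0 : 0 < a := Real.sqrt_pos.2 (by positivity)
    have hb0 : 0 ≤ b := Real.sqrt_nonneg _
    have ha2 : a ^ 2 = n + 1 := Real.sq_sqrt (by positivity)
    have hb2 : b ^ 2 = n := Real.sq_sqrt (by positivity)
    have hba : b ≤ a := Real.sqrt_le_sqrt (by linarith)
    have h1 : a⁻¹ ≤ 2 * (a - b) := by
      rw [inv_eq_one_div, div_le_iff₀ ha0]
      nlinarith
    linarith

/-- main estimate: sum over the `N`-th roots of unity -/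
theorem root_sum (N : ℕ) (hN : 2 ≤ N) (ζ : ℂ) (hζ : IsPrimitiveRoot ζ N) :
    ∑ y ∈ Polynomial.nthRootsFinset N (1 : ℂ), (Real.sqrt (max ‖y - 1‖ ‖ζ - 1‖))⁻¹ ≤ 3 * N := by
  have hN0 : 0 < N := by omega
  haveI : NeZero N := ⟨hN0.ne'⟩
  set ω := Complex.exp (2 * Real.pi * Complex.I / N) with hω
  have hωp : IsPrimitiveRoot ω N := Complex.isPrimitiveRoot_exp N hN0.ne'
  have hNr : (0 : ℝ) < N := by exact_mod_cast hN0
  -- lower bound on ‖ζ - 1‖
  have hζ1 : 4 / (N : ℝ) ≤ ‖ζ - 1‖ := by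
    obtain ⟨j, hj, hjζ⟩ := hωp.eq_pow_of_pow_eq_one hζ.pow_eq_one
    have hj0 : 0 < j := by
      rcases Nat.eq_zero_or_pos j with h | h
      · exfalso
        rw [h, pow_zero] at hjζ
        rw [← hjζ] at hζ
        have := hζ.eq_orderOf
        rw [orderOf_one] at this
        omega
      · exact h
    have h1 := low_bound N j hN0 hj.le
    rw [← hω, hjζ] at h1
    refine le_trans ?_ h1
    have h2 : (1 : ℝ) ≤ min (j : ℝ) ((N : ℝ) - j) := by
      apply le_min
      · exact_mod_cast hj0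
      · have : (j : ℝ) + 1 ≤ N := by exact_mod_cast hj
        linarith
    gcongr
    linarith
  have h0 := sum_coset N hN0 ω hωp 1 (one_pow N)
    (fun y => (Real.sqrt (max ‖y - 1‖ ‖ζ - 1‖))⁻¹)
  rw [← h0]
  obtain ⟨n, rfl⟩ : ∃ n, N = n + 1 := ⟨N - 1, by omega⟩
  rw [Finset.sum_range_succ']
  set s := Real.sqrt ((n + 1 : ℕ) : ℝ) with hs
  have hs1 : 1 ≤ s := by
    rw [hs, Real.one_le_sqrt]
    exact_mod_cast hN0
  have hs2 : s ^ 2 = ((n + 1 : ℕ) : ℝ) := Real.sq_sqrt (by positivity)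
  have key : ∀ t x : ℝ, 0 < t → 4 * t / ((n + 1 : ℕ) : ℝ) ≤ x →
      (Real.sqrt x)⁻¹ ≤ s / 2 * (Real.sqrt t)⁻¹ := by
    intro t x ht hx
    have h1 : Real.sqrt (4 * t / ((n + 1 : ℕ) : ℝ)) = 2 * Real.sqrt t / s := by
      rw [Real.sqrt_div (by positivity), Real.sqrt_mul (by norm_num)]
      congr 2
      rw [show (4 : ℝ) = 2 ^ 2 by norm_num, Real.sqrt_sq (by norm_num)]
    have h2 : 0 < Real.sqrt (4 * t / ((n + 1 : ℕ) : ℝ)) := Real.sqrt_pos.2 (by positivity)
    calc (Real.sqrt x)⁻¹ ≤ (Real.sqrt (4 * t / ((n + 1 : ℕ) : ℝ)))⁻¹ :=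
          inv_anti₀ h2 (Real.sqrt_le_sqrt hx)
      _ = s / 2 * (Real.sqrt t)⁻¹ := by
          rw [h1]
          have : Real.sqrt t ≠ 0 := (Real.sqrt_pos.2 ht).ne'
          have hs0 : s ≠ 0 := by positivity
          field_simp
  have hz : (Real.sqrt (max ‖1 * ω ^ 0 - 1‖ ‖ζ - 1‖))⁻¹ ≤ s / 2 * (Real.sqrt 1)⁻¹ := by
    apply key 1 _ one_pos
    rw [mul_one]
    exact hζ1.trans (le_max_right _ _)
  rw [Real.sqrt_one, inv_one, mul_one] at hz
  have hterm : ∀ k ∈ range n, (Real.sqrt (max ‖1 * ω ^ (k + 1) - 1‖ ‖ζ - 1‖))⁻¹ ≤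
      s / 2 * ((Real.sqrt ((k : ℝ) + 1))⁻¹ + (Real.sqrt (((n - 1 - k : ℕ) : ℝ) + 1))⁻¹) := by
    intro k hk
    have hk' : k < n := by simpa using hk
    have hcast : (((n - 1 - k : ℕ) : ℝ) + 1) = (n : ℝ) - k := by
      have : n - 1 - k + 1 + k = n := by omega
      have h2 : (((n - 1 - k : ℕ) : ℝ) + 1 + k) = n := by exact_mod_cast this
      linarith
    have hnk : (0 : ℝ) < (n : ℝ) - k := by
      have : (k : ℝ) < n := by exact_mod_cast hk'
      linarith
    have hk1 : (0 : ℝ) < (k : ℝ) + 1 := by positivity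
    have hlow := low_bound (n + 1) (k + 1) hN0 (by omega)
    have h1 := key (min ((k : ℝ) + 1) ((n : ℝ) - k)) (max ‖1 * ω ^ (k + 1) - 1‖ ‖ζ - 1‖)
      (lt_min hk1 hnk) (by
        rw [one_mul]
        refine le_trans ?_ (le_max_left _ _)
        have h2 : min ((k : ℝ) + 1) ((n : ℝ) - k)
            = min (((k + 1 : ℕ) : ℝ)) (((n + 1 : ℕ) : ℝ) - ((k + 1 : ℕ) : ℝ)) := by
          push_cast; congr 1; ring
        rw [h2]
        exact hlow)
    refine h1.trans ?_
    rw [hcast]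
    apply mul_le_mul_of_nonneg_left _ (by positivity)
    rcases le_total ((k : ℝ) + 1) ((n : ℝ) - k) with h | h
    · rw [min_eq_left h]
      have : 0 ≤ (Real.sqrt ((n : ℝ) - k))⁻¹ := by positivity
      linarith
    · rw [min_eq_right h]
      have : 0 ≤ (Real.sqrt ((k : ℝ) + 1))⁻¹ := by positivity
      linarith
  have hsum := Finset.sum_le_sum hterm
  rw [← Finset.mul_sum, Finset.sum_add_distrib,
    Finset.sum_range_reflect (fun k => (Real.sqrt ((k : ℝ) + 1))⁻¹) n] at hsum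
  have h5 := sum_inv_sqrt n
  have h6 : Real.sqrt (n : ℝ) ≤ s := Real.sqrt_le_sqrt (by push_cast; linarith)
  have h7 : s / 2 * (∑ k ∈ range n, (Real.sqrt ((k : ℝ) + 1))⁻¹
      + ∑ k ∈ range n, (Real.sqrt ((k : ℝ) + 1))⁻¹) ≤ s / 2 * (4 * s) := by
    apply mul_le_mul_of_nonneg_left _ (by positivity)
    linarith
  have h8 : s ≤ s ^ 2 := by nlinarith
  rw [← hs2]
  nlinarith [hsum, hz, h7, h8]

end Pool.Agent.H84_tilf
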