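import Mathlib
import Pool.Agent.H84_tilf.Chars
import Pool.Agent.H84_tilf.Est

/-! Every translation invariant linear functional on `L²(G)` is continuous, if `G` is a compact
abelian group with a dense cyclic subgroup whose characters of finite order separate points. -/

set_option autoImplicit false

namespace Pool.Agent.H84_tilf
open MeasureTheory Finset
open scoped ENNReal ComplexConjugate

variable {G : Type} [TopologicalSpace G] [AddCommGroup G]

noncomputable def mm (u : G) (χ : C(G, ℂ)) (a : G) : ℝ := max ‖χ a - 1‖ ‖χ u - 1‖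

noncomputable def ww (u : G) (χ : C(G, ℂ)) (a : G) : ℝ≥0∞ :=
  ENNReal.ofReal (Real.sqrt (mm u χ a))⁻¹

lemma all_pow (u : G) (hu : DenseRange (fun n : ℤ => n • u)) {χ : C(G, ℂ)} (h : χ ∈ chars G)
    (N : ℕ) (hN : χ u ^ N = 1) (x : G) : χ x ^ N = 1 := by
  let H : AddSubgroup G :=
    { carrier := {x | χ x ^ N = 1}
      zero_mem' := by simp [ch_zero h]
      add_mem' := by
        intro x y hx hy
        simp only [Set.mem_ofPred_eq] at hx hy ⊢
        rw [ch_add h, mul_pow, hx, hy, one_mul]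
      neg_mem' := by
        intro x hx
        simp only [Set.mem_ofPred_eq] at hx ⊢
        have h1 : χ (-x) * χ x = 1 := by rw [← ch_add h, neg_add_cancel, ch_zero h]
        have h2 : (χ (-x) * χ x) ^ N = 1 := by rw [h1, one_pow]
        rw [mul_pow, hx, mul_one] at h2
        exact h2 }
  have hcl : IsClosed (H : Set G) := by
    change IsClosed {x | χ x ^ N = 1}
    exact isClosed_eq (χ.continuous.pow N) continuous_const
  have hsub : Set.range (fun n : ℤ => n • u) ⊆ (H : Set G) := by
    rintro _ ⟨n, rfl⟩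
    exact H.zsmul_mem hN n
  have h1 : x ∈ closure (Set.range (fun n : ℤ => n • u)) := hu x
  exact hcl.closure_subset_iff.2 hsub h1

lemma ne_one_of (u : G) (hu : DenseRange (fun n : ℤ => n • u)) {χ : C(G, ℂ)} (h : χ ∈ chars G)
    (hne : χ ≠ 1) : χ u ≠ 1 := by
  intro h1
  apply hne
  ext x
  have := all_pow u hu h 1 (by rw [pow_one]; exact h1) x
  rw [pow_one] at this
  rw [this]; rfl

section
variable [IsTopologicalAddGroup G] [CompactSpace G] [MeasurableSpace G] [BorelSpace G]
  (μ : Measure G) [μ.IsAddHaarMeasure] [IsProbabilityMeasure μ]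

omit [AddCommGroup G] [IsTopologicalAddGroup G] [CompactSpace G] in
lemma measurable_ww (u : G) (χ : C(G, ℂ)) : Measurable (ww u χ) := by
  have h1 : Measurable (fun a => χ a) := χ.continuous.measurable
  unfold ww mm
  fun_prop

theorem lint_bound (u : G) (hu : DenseRange (fun n : ℤ => n • u)) {χ : C(G, ℂ)}
    (h : χ ∈ chars G) (hne : χ ≠ 1) : ∫⁻ a, ww u χ a ∂μ ≤ 3 := by
  set ζ := χ u with hζ
  have hζ1 : ζ ≠ 1 := ne_one_of u hu h hne
  have hfin : IsOfFinOrder ζ := by
    obtain ⟨N', hN', hx⟩ := h.2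
    exact isOfFinOrder_iff_pow_eq_one.2 ⟨N', hN', hx u⟩
  set N := orderOf ζ with hN
  have hN0 : 0 < N := hfin.orderOf_pos
  have hprim : IsPrimitiveRoot ζ N := IsPrimitiveRoot.orderOf ζ
  have hN2 : 2 ≤ N := by
    by_contra hcon
    have : N = 1 := by omega
    exact hζ1 (orderOf_eq_one_iff.1 this)
  have hroot : ∀ x, χ x ^ N = 1 := all_pow u hu h N (pow_orderOf_eq_one ζ)
  have hku : ∀ k : ℕ, χ (k • u) = ζ ^ k := by
    intro k
    induction k with
    | zero => rw [zero_smul, ch_zero h, pow_zero]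
    | succ k ih => rw [succ_nsmul, ch_add h, ih, pow_succ]
  have h1 : (N : ℝ≥0∞) * ∫⁻ a, ww u χ a ∂μ ≤ ENNReal.ofReal (3 * N) := by
    calc (N : ℝ≥0∞) * ∫⁻ a, ww u χ a ∂μ
        = ∑ k ∈ range N, ∫⁻ a, ww u χ (a + k • u) ∂μ := by
          have : ∀ k ∈ range N, ∫⁻ a, ww u χ (a + k • u) ∂μ = ∫⁻ a, ww u χ a ∂μ := fun k _ =>
            lintegral_add_right_eq_self (μ := μ) (fun a => ww u χ a) (k • u)
          rw [Finset.sum_congr rfl this, Finset.sum_const, card_range, nsmul_eq_mul]
      _ = ∫⁻ a, ∑ k ∈ range N, ww u χ (a + k • u) ∂μ := by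
          rw [lintegral_finsetSum]
          intro k _
          exact (measurable_ww u χ).comp (measurable_add_const _)
      _ ≤ ∫⁻ _, ENNReal.ofReal (3 * N) ∂μ := by
          apply lintegral_mono
          intro a
          change ∑ k ∈ range N, ww u χ (a + k • u) ≤ _
          have h2 : ∀ k ∈ range N, ww u χ (a + k • u)
              = ENNReal.ofReal (Real.sqrt (max ‖χ a * ζ ^ k - 1‖ ‖ζ - 1‖))⁻¹ := by
            intro k _
            unfold ww mm
            rw [ch_add h, hku]
          rw [Finset.sum_congr rfl h2, sum_coset N hN0 ζ hprim (χ a) (hroot a)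
            (fun y => ENNReal.ofReal (Real.sqrt (max ‖y - 1‖ ‖ζ - 1‖))⁻¹),
            ← ENNReal.ofReal_sum_of_nonneg (fun _ _ => by positivity)]
          exact ENNReal.ofReal_le_ofReal (root_sum N hN2 ζ hprim)
      _ = ENNReal.ofReal (3 * N) := by simp
  have h2 : ENNReal.ofReal (3 * N) = (N : ℝ≥0∞) * 3 := by
    rw [mul_comm, ENNReal.ofReal_mul (by positivity), ENNReal.ofReal_natCast]
    norm_num
  rw [h2] at h1
  exact (ENNReal.mul_le_mul_iff_right (by exact_mod_cast hN0.ne') (ENNReal.natCast_ne_top N)).1 h1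

include μ in
theorem exists_points (u : G) (hu : DenseRange (fun n : ℤ => n • u)) (c : chars G → ℝ≥0∞)
    (hc : ∑' χ, c χ ≠ ∞) (hc1 : c ⟨1, one_mem_chars⟩ = 0) :
    ∃ a : G × G × G × G, ∑' χ, c χ * (ww u χ.1 a.1 * (ww u χ.1 a.2.1 *
      (ww u χ.1 a.2.2.1 * ww u χ.1 a.2.2.2))) ≠ ∞ := by
  set s := Function.support c with hs
  have hcount : s.Countable := Summable.countable_support_ennreal hc
  have : Countable s := hcount.to_subtype
  set F : G × G × G × G → chars G → ℝ≥0∞ := fun a χ => c χ * (ww u χ.1 a.1 * (ww u χ.1 a.2.1 *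
      (ww u χ.1 a.2.2.1 * ww u χ.1 a.2.2.2))) with hF
  have hsupp : ∀ a, ∑' χ, F a χ = ∑' χ : s, F a χ := by
    intro a
    symm
    apply tsum_subtype_eq_of_support_subset
    intro χ hχ
    rw [hs, Function.mem_support]
    intro h0
    apply hχ
    simp only [hF, h0, zero_mul]
  have hsuppc : ∑' χ, c χ = ∑' χ : s, c χ := by
    symm
    apply tsum_subtype_eq_of_support_subset
    exact subset_rfl
  have hne : ∀ χ : s, χ.1.1 ≠ 1 := by
    intro χ h1
    apply χ.2
    have : χ.1 = ⟨1, one_mem_chars⟩ := Subtype.ext h1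
    rw [this]; exact hc1
  have hint : ∫⁻ a, ∑' χ : s, F a χ ∂(μ.prod (μ.prod (μ.prod μ))) ≠ ∞ := by
    have hm : ∀ χ : chars G, Measurable (ww u χ.1) := fun χ => measurable_ww u χ.1
    rw [lintegral_tsum]
    · have hle : ∀ χ : s, ∫⁻ a, F a χ ∂(μ.prod (μ.prod (μ.prod μ))) ≤ c χ * 81 := by
        intro χ
        simp only [hF]
        have hm' := hm χ.1
        rw [lintegral_const_mul _ (by fun_prop)]
        have hb := lint_bound μ u hu χ.1.2 (hne χ)
        apply mul_le_mul_right
        rw [lintegral_prod_mul (f := ww u χ.1.1) (g := fun b : G × G × G => ww u χ.1.1 b.1 *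
          (ww u χ.1.1 b.2.1 * ww u χ.1.1 b.2.2)) (by fun_prop) (by fun_prop),
          lintegral_prod_mul (f := ww u χ.1.1) (g := fun b : G × G => ww u χ.1.1 b.1 *
          ww u χ.1.1 b.2) (by fun_prop) (by fun_prop),
          lintegral_prod_mul (f := ww u χ.1.1) (g := ww u χ.1.1) (by fun_prop) (by fun_prop)]
        calc _ ≤ (3 : ℝ≥0∞) * (3 * (3 * 3)) := by gcongr
          _ = 81 := by norm_num
      refine ne_top_of_le_ne_top ?_ (ENNReal.tsum_le_tsum hle)
      rw [ENNReal.tsum_mul_right, ← hsuppc]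
      exact ENNReal.mul_ne_top hc (by norm_num)
    · intro χ
      have hm' := hm χ.1
      simp only [hF]
      fun_prop
  have hae := ae_lt_top' (μ := μ.prod (μ.prod (μ.prod μ))) (f := fun a => ∑' χ : s, F a χ) (by
    have hm : ∀ χ : chars G, Measurable (ww u χ.1) := fun χ => measurable_ww u χ.1
    apply AEMeasurable.ennreal_tsum
    intro χ
    have hm' := hm χ.1
    simp only [hF]
    fun_prop) hint
  obtain ⟨a, ha⟩ := hae.exists
  exact ⟨a, by
    have := hsupp a
    simp only [hF] at this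
    rw [this]
    exact ha.ne⟩

end

end Pool.Agent.H84_tilf
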