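import Mathlib
import Pool.Agent.H84_tilf.Main

/-! Every translation invariant linear functional on `L²(G)` is continuous. -/

set_option autoImplicit false

namespace Pool.Agent.H84_tilf
open MeasureTheory Finset
open scoped ENNReal ComplexConjugate

variable {G : Type} [TopologicalSpace G] [AddCommGroup G]

/-- the denominator -/
noncomputable def SS (a : Fin 5 → G) (χ : C(G, ℂ)) : ℝ := ∑ j, ‖χ (a j) - 1‖ ^ 2

lemma amgm (m1 m2 m3 m4 : ℝ) :
    m1 * (m2 * (m3 * m4)) ≤ (m1 ^ 4 + m2 ^ 4 + m3 ^ 4 + m4 ^ 4) / 4 := by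
  nlinarith [sq_nonneg (m1 ^ 2 - m2 ^ 2), sq_nonneg (m3 ^ 2 - m4 ^ 2),
    sq_nonneg (m1 * m2 - m3 * m4)]

lemma inv_SS_le (u a1 a2 a3 a4 : G) (χ : C(G, ℂ)) (hu : χ u ≠ 1) :
    (SS ![u, a1, a2, a3, a4] χ)⁻¹ ≤ (Real.sqrt (mm u χ a1))⁻¹ * ((Real.sqrt (mm u χ a2))⁻¹ *
      ((Real.sqrt (mm u χ a3))⁻¹ * (Real.sqrt (mm u χ a4))⁻¹)) := by
  have h0 : 0 < ‖χ u - 1‖ := norm_pos_iff.2 (sub_ne_zero.2 hu)
  have hm : ∀ a, 0 < mm u χ a := fun a => lt_of_lt_of_le h0 (le_max_right _ _)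
  have hsq : ∀ a, Real.sqrt (mm u χ a) ^ 4 = (mm u χ a) ^ 2 := by
    intro a
    calc Real.sqrt (mm u χ a) ^ 4 = (Real.sqrt (mm u χ a) ^ 2) ^ 2 := by ring
      _ = (mm u χ a) ^ 2 := by rw [Real.sq_sqrt (hm a).le]
  have hle : ∀ a, (mm u χ a) ^ 2 ≤ ‖χ a - 1‖ ^ 2 + ‖χ u - 1‖ ^ 2 := by
    intro a
    unfold mm
    rcases max_choice ‖χ a - 1‖ ‖χ u - 1‖ with h | h <;> rw [h] <;> nlinarith [sq_nonneg ‖χ a - 1‖, sq_nonneg ‖χ u - 1‖]
  have h1 := amgm (Real.sqrt (mm u χ a1)) (Real.sqrt (mm u χ a2)) (Real.sqrt (mm u χ a3))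
    (Real.sqrt (mm u χ a4))
  rw [hsq, hsq, hsq, hsq] at h1
  have h2 : SS ![u, a1, a2, a3, a4] χ = ‖χ u - 1‖ ^ 2 + ‖χ a1 - 1‖ ^ 2 + ‖χ a2 - 1‖ ^ 2
      + ‖χ a3 - 1‖ ^ 2 + ‖χ a4 - 1‖ ^ 2 := by
    unfold SS
    rw [Fin.sum_univ_five]
    rfl
  have hpos : 0 < Real.sqrt (mm u χ a1) * (Real.sqrt (mm u χ a2) * (Real.sqrt (mm u χ a3) *
      Real.sqrt (mm u χ a4))) := by
    have := fun a => Real.sqrt_pos.2 (hm a)
    have i1 := this a1
    have i2 := this a2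
    have i3 := this a3
    have i4 := this a4
    positivity
  have h3 : Real.sqrt (mm u χ a1) * (Real.sqrt (mm u χ a2) * (Real.sqrt (mm u χ a3) *
      Real.sqrt (mm u χ a4))) ≤ SS ![u, a1, a2, a3, a4] χ := by
    rw [h2]
    have i1 := hle a1
    have i2 := hle a2
    have i3 := hle a3
    have i4 := hle a4
    nlinarith [sq_nonneg ‖χ a1 - 1‖, sq_nonneg ‖χ a2 - 1‖, sq_nonneg ‖χ a3 - 1‖,
      sq_nonneg ‖χ a4 - 1‖]
  rw [← mul_inv, ← mul_inv, ← mul_inv]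
  exact inv_anti₀ hpos h3

variable [IsTopologicalAddGroup G] [CompactSpace G] [T2Space G] [MeasurableSpace G] [BorelSpace G]
  (μ : Measure G) [μ.IsAddHaarMeasure] [IsProbabilityMeasure μ]

omit [T2Space G] in
theorem phi_zero (hsep : ∀ x y : G, x ≠ y → ∃ χ ∈ chars G, χ x ≠ χ y)
    (u : G) (hu : DenseRange (fun n : ℤ => n • u)) (φ : Lp ℂ 2 μ →ₗ[ℂ] ℂ)
    (hφ : ∀ (a : G) (f : Lp ℂ 2 μ), φ (tr μ a f) = φ f) (f : Lp ℂ 2 μ)
    (hf : (chBasis μ hsep).repr f ⟨1, one_mem_chars⟩ = 0) : φ f = 0 := by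
  set b := chBasis μ hsep with hb
  set fh := b.repr f with hfh
  have hsum2 : Summable (fun χ => ‖fh χ‖ ^ 2) := by
    have := lp.memℓp fh
    have h2 := this.summable (by norm_num : (0 : ℝ) < (2 : ℝ≥0∞).toReal)
    simpa using h2
  have hc : ∑' χ, ENNReal.ofReal (‖fh χ‖ ^ 2) ≠ ∞ := hsum2.tsum_ofReal_ne_top
  obtain ⟨⟨a1, a2, a3, a4⟩, ha⟩ := exists_points μ u hu (fun χ => ENNReal.ofReal (‖fh χ‖ ^ 2)) hc
    (by simp only [hf]; simp)
  set a : Fin 5 → G := ![u, a1, a2, a3, a4] with ha5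
  have hS0 : ∀ χ : chars G, 0 ≤ SS a χ.1 := fun χ => Finset.sum_nonneg fun _ _ => by positivity
  -- summability of |fh|^2 / S
  have hsumS : Summable (fun χ : chars G => ‖fh χ‖ ^ 2 * (SS a χ.1)⁻¹) := by
    have hle : ∀ χ : chars G, ENNReal.ofReal (‖fh χ‖ ^ 2 * (SS a χ.1)⁻¹) ≤
        ENNReal.ofReal (‖fh χ‖ ^ 2) * (ww u χ.1 a1 * (ww u χ.1 a2 *
      (ww u χ.1 a3 * ww u χ.1 a4))) := by
      intro χ
      by_cases h1 : χ.1 = 1
      · have h2 : χ = ⟨1, one_mem_chars⟩ := Subtype.ext h1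
        rw [h2, hf]
        simp
      · have h3 := inv_SS_le u a1 a2 a3 a4 χ.1 (ne_one_of u hu χ.2 h1)
        unfold ww
        rw [← ENNReal.ofReal_mul (by positivity), ← ENNReal.ofReal_mul (by positivity),
          ← ENNReal.ofReal_mul (by positivity), ← ENNReal.ofReal_mul (by positivity)]
        apply ENNReal.ofReal_le_ofReal
        exact mul_le_mul_of_nonneg_left h3 (by positivity)
    have h4 : ∑' χ : chars G, ENNReal.ofReal (‖fh χ‖ ^ 2 * (SS a χ.1)⁻¹) ≠ ∞ :=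
      ne_top_of_le_ne_top ha (ENNReal.tsum_le_tsum hle)
    have h5 := ENNReal.summable_toReal h4
    refine h5.congr fun χ => ?_
    rw [ENNReal.toReal_ofReal (mul_nonneg (by positivity) (inv_nonneg.2 (hS0 χ)))]
  -- coefficients
  let gc : Fin 5 → chars G → ℂ := fun j χ =>
    conj (χ.1 (a j) - 1) * ((SS a χ.1 : ℝ) : ℂ)⁻¹ * fh χ
  have hgc : ∀ j, Memℓp (gc j) 2 := by
    intro j
    apply memℓp_gen
    refine Summable.of_nonneg_of_le (fun _ => by positivity) (fun χ => ?_) hsumS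
    have h6 : ‖χ.1 (a j) - 1‖ ^ 2 ≤ SS a χ.1 :=
      Finset.single_le_sum (f := fun j => ‖χ.1 (a j) - 1‖ ^ 2) (fun _ _ => by positivity)
        (Finset.mem_univ j)
    have h7 : ‖gc j χ‖ = ‖χ.1 (a j) - 1‖ * (SS a χ.1)⁻¹ * ‖fh χ‖ := by
      simp only [gc]
      rw [norm_mul, norm_mul, RCLike.norm_conj, norm_inv, Complex.norm_real,
        Real.norm_of_nonneg (hS0 χ)]
    have h8 : (‖gc j χ‖ : ℝ) ^ ((2 : ℝ≥0∞).toReal) = ‖gc j χ‖ ^ 2 := by simp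
    rw [h8, h7]
    calc (‖χ.1 (a j) - 1‖ * (SS a χ.1)⁻¹ * ‖fh χ‖) ^ 2
        = ‖χ.1 (a j) - 1‖ ^ 2 * ((SS a χ.1)⁻¹ * (SS a χ.1)⁻¹ * ‖fh χ‖ ^ 2) := by ring
      _ ≤ SS a χ.1 * ((SS a χ.1)⁻¹ * (SS a χ.1)⁻¹ * ‖fh χ‖ ^ 2) :=
          mul_le_mul_of_nonneg_right h6 (by
            have := inv_nonneg.2 (hS0 χ)
            positivity)
      _ ≤ ‖fh χ‖ ^ 2 * (SS a χ.1)⁻¹ := by
          rcases (hS0 χ).eq_or_lt with h | h
          · rw [← h]; simp
          · apply le_of_eq; field_simp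
  let g : Fin 5 → Lp ℂ 2 μ := fun j => b.repr.symm ⟨gc j, hgc j⟩
  have hg : ∀ j χ, b.repr (g j) χ = gc j χ := by
    intro j χ
    simp only [g, LinearIsometryEquiv.apply_symm_apply]
  have hdec : f = ∑ j, (tr μ (a j) (g j) - g j) := by
    apply b.repr.injective
    ext χ
    rw [map_sum, lp.coeFn_sum, Finset.sum_apply]
    simp only [map_sub, lp.coeFn_sub, Pi.sub_apply]
    have h9 : ∀ j, b.repr (tr μ (a j) (g j)) χ = χ.1 (a j) * gc j χ := fun j => by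
      rw [hb, repr_tr, ← hb, hg]
    simp_rw [h9, hg]
    by_cases h1 : χ.1 = 1
    · have h2 : χ = ⟨1, one_mem_chars⟩ := Subtype.ext h1
      have h3 : ∀ j, gc j χ = 0 := fun j => by
        simp only [gc]
        rw [h2, hf, mul_zero]
      simp only [h3, mul_zero, sub_zero, Finset.sum_const_zero]
      rw [h2]
      exact hf
    · have hSne : ((SS a χ.1 : ℝ) : ℂ) ≠ 0 := by
        have h4 : 0 < SS a χ.1 := by
          have h5 : ‖χ.1 u - 1‖ ^ 2 ≤ SS a χ.1 :=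
            Finset.single_le_sum (f := fun j => ‖χ.1 (a j) - 1‖ ^ 2) (fun _ _ => by positivity)
              (Finset.mem_univ 0)
          have h6 : 0 < ‖χ.1 u - 1‖ :=
            norm_pos_iff.2 (sub_ne_zero.2 (ne_one_of u hu χ.2 h1))
          have h7 : 0 < ‖χ.1 u - 1‖ ^ 2 := by positivity
          linarith
        exact_mod_cast h4.ne'
      have h10 : ∀ j, χ.1 (a j) * gc j χ - gc j χ
          = ((‖χ.1 (a j) - 1‖ ^ 2 : ℝ) : ℂ) * (((SS a χ.1 : ℝ) : ℂ)⁻¹ * fh χ) := by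
        intro j
        simp only [gc]
        have h11 : ((‖χ.1 (a j) - 1‖ ^ 2 : ℝ) : ℂ) = (χ.1 (a j) - 1) * conj (χ.1 (a j) - 1) := by
          rw [Complex.mul_conj']; push_cast; rfl
        rw [h11]; ring
      simp_rw [h10]
      rw [← Finset.sum_mul, ← Complex.ofReal_sum]
      change fh χ = ((SS a χ.1 : ℝ) : ℂ) * _
      rw [mul_inv_cancel_left₀ hSne]
  rw [hdec, map_sum]
  apply Finset.sum_eq_zero
  intro j _
  rw [map_sub, hφ, sub_self]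

omit [T2Space G] in
theorem phi_continuous (hsep : ∀ x y : G, x ≠ y → ∃ χ ∈ chars G, χ x ≠ χ y)
    (u : G) (hu : DenseRange (fun n : ℤ => n • u)) (φ : Lp ℂ 2 μ →ₗ[ℂ] ℂ)
    (hφ : ∀ (a : G) (f : Lp ℂ 2 μ), φ (tr μ a f) = φ f) : Continuous φ := by
  classical
  set b := chBasis μ hsep with hb
  set o : chars G := ⟨1, one_mem_chars⟩ with ho
  have key : ∀ f : Lp ℂ 2 μ, φ f = b.repr f o * φ (b o) := by
    intro f
    have h1 : φ (f - b.repr f o • b o) = 0 := by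
      apply phi_zero μ hsep u hu φ hφ
      rw [← hb, map_sub, map_smul, lp.coeFn_sub, lp.coeFn_smul, Pi.sub_apply, Pi.smul_apply,
        HilbertBasis.repr_self, lp.single_apply_self]
      simp
      exact sub_self _
    rw [map_sub, map_smul, smul_eq_mul] at h1
    linear_combination h1
  have h2 : (φ : Lp ℂ 2 μ → ℂ) = fun f => b.repr f o * φ (b o) := funext key
  rw [h2]
  have h3 : (fun f => b.repr f o) = fun f => inner ℂ (b o) f := by
    ext f; rw [HilbertBasis.repr_apply_apply]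
  apply Continuous.mul _ continuous_const
  rw [h3]
  exact continuous_const.inner continuous_id

end Pool.Agent.H84_tilf
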