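import Mathlib
import Pool.Agent.H84_tilf.Func

/-! The 2-adic integers satisfy the hypotheses. -/

set_option autoImplicit false

namespace Pool.Agent.H84_tilf
open MeasureTheory

instance fact2 : Fact (Nat.Prime 2) := ⟨Nat.prime_two⟩

lemma continuous_toZModPow_char (k : ℕ) [NeZero (2 ^ k)] :
    Continuous (fun z : ℤ_[2] => ZMod.stdAddChar (PadicInt.toZModPow k z)) := by
  apply IsLocallyConstant.continuous
  rw [IsLocallyConstant.iff_eventually_eq]
  intro x
  have h1 : Metric.ball x ((2 : ℝ) ^ (-(k : ℤ))) ∈ nhds x :=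
    Metric.ball_mem_nhds x (by positivity)
  filter_upwards [h1] with y hy
  have h2 : PadicInt.toZModPow k (y - x) = 0 := by
    rw [← RingHom.mem_ker, PadicInt.ker_toZModPow, ← PadicInt.norm_le_pow_iff_mem_span_pow]
    rw [Metric.mem_ball, dist_eq_norm] at hy
    exact_mod_cast hy.le
  rw [map_sub, sub_eq_zero] at h2
  rw [h2]

/-- the standard characters of the 2-adic integers -/
noncomputable def zc (k : ℕ) [NeZero (2 ^ k)] : C(ℤ_[2], ℂ) :=
  ⟨fun z => ZMod.stdAddChar (PadicInt.toZModPow k z), continuous_toZModPow_char k⟩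

lemma zc_mem (k : ℕ) [NeZero (2 ^ k)] : zc k ∈ chars ℤ_[2] := by
  refine ⟨fun x y => ?_, 2 ^ k, by positivity, fun x => ?_⟩
  · change ZMod.stdAddChar (PadicInt.toZModPow k (x + y)) = _
    rw [map_add, AddChar.map_add_eq_mul]
    rfl
  · change (ZMod.stdAddChar (PadicInt.toZModPow k x)) ^ (2 ^ k) = 1
    rw [← AddChar.map_nsmul_eq_pow]
    simp

lemma zsep : ∀ x y : ℤ_[2], x ≠ y → ∃ χ ∈ chars ℤ_[2], χ x ≠ χ y := by
  intro x y hxy
  have h1 : ∃ k, PadicInt.toZModPow k x ≠ PadicInt.toZModPow (p := 2) k y := by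
    by_contra hcon
    push Not at hcon
    exact hxy (PadicInt.ext_of_toZModPow.1 hcon)
  obtain ⟨k, hk⟩ := h1
  haveI : NeZero (2 ^ k) := ⟨by positivity⟩
  exact ⟨zc k, zc_mem k, fun h => hk (ZMod.injective_stdAddChar h)⟩

lemma zdense : DenseRange (fun n : ℤ => n • (1 : ℤ_[2])) := by
  have h := PadicInt.denseRange_intCast (p := 2)
  have h2 : (fun n : ℤ => n • (1 : ℤ_[2])) = Int.cast := by
    ext n; simp
  rw [h2]; exact h

end Pool.Agent.H84_tilf
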