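
import Pool.Agent.H84_tilf.Z2

set_option autoImplicit false
open MeasureTheory


namespace Pool.Agent.H84_tilf.Final

/-- There is an infinite Hausdorff compact abelian totally disconnected group with a finitely generated dense subgroup such that every translation-invariant complex linear functional on L² of its Haar measure is continuous. -/
theorem result :
    ∃ (G : Type) (_ : TopologicalSpace G) (_ : AddCommGroup G)
      (_ : IsTopologicalAddGroup G) (_ : CompactSpace G) (_ : T2Space G)
      (_ : TotallyDisconnectedSpace G) (_ : Infinite G)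
      (_ : MeasurableSpace G) (_ : BorelSpace G) (μ : Measure G),
      μ.IsAddHaarMeasure ∧
      (∃ s : Finset G,
        Dense (((AddSubgroup.closure (s : Set G)) : AddSubgroup G) : Set G)) ∧
      ∀ φ : Lp ℂ 2 μ →ₗ[ℂ] ℂ,
        (∀ (a : G) (f g : Lp ℂ 2 μ),
          ((g : G → ℂ) =ᵐ[μ] fun x => (f : G → ℂ) (x + a)) → φ g = φ f) →
        Continuous φ := by
  letI m : MeasurableSpace ℤ_[2] := borel ℤ_[2]
  haveI hb : BorelSpace ℤ_[2] := ⟨rfl⟩
  set K : TopologicalSpace.PositiveCompacts ℤ_[2] := ⊤ with hK
  set μ : Measure ℤ_[2] := Measure.addHaarMeasure K with hμ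
  haveI hμ1 : IsProbabilityMeasure μ := ⟨by
    have h := Measure.addHaarMeasure_self (K₀ := K)
    have h2 : (K : Set ℤ_[2]) = Set.univ := rfl
    rw [h2] at h
    exact h⟩
  haveI hT : TotallyDisconnectedSpace ℤ_[2] := inferInstance
  refine ⟨ℤ_[2], inferInstance, inferInstance, inferInstance, inferInstance, inferInstance, hT,
    inferInstance, m, hb, μ, inferInstance, ?_, ?_⟩
  · refine ⟨{1}, ?_⟩
    have h := Pool.Agent.H84_tilf.zdense
    refine Dense.mono ?_ h
    rintro _ ⟨n, rfl⟩
    exact AddSubgroup.zsmul_mem _ (AddSubgroup.subset_closure (by simp)) n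
  · intro φ hφ
    apply Pool.Agent.H84_tilf.phi_continuous μ Pool.Agent.H84_tilf.zsep 1
      Pool.Agent.H84_tilf.zdense φ
    intro a f
    exact hφ a f _ (Pool.Agent.H84_tilf.tr_coe μ a f)

end Pool.Agent.H84_tilf.Final
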